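import Mathlib
import Pool.Agent.H534R3.UD
import Pool.Agent.H238R3.UL.Poly

/-!
# Sequences `x_n` for which `s x_n + u` is rarely close to an integer
-/

set_option autoImplicit false

namespace Pool.Agent.X134.UD

open Filter Topology Finset Polynomial
open Pool.Agent.H534R3.UDist (ee Weyl cnt upper norm_ee)

/-- the upper density of the set of the `n` with `P n` is at most `β` -/
def UpperLE (P : ℕ → Prop) (β : ℝ) : Prop :=
  ∀ δ : ℝ, 0 < δ → ∃ N₀ : ℕ, ∀ N : ℕ, N₀ ≤ N → ({n : ℕ | n < N ∧ P n}.ncard : ℝ) ≤ (β + δ) * N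

theorem ee_add (a b : ℝ) : ee (a + b) = ee a * ee b := by
  unfold ee
  rw [← Complex.exp_add]
  congr 1
  push_cast
  ring

theorem weyl_shift {x : ℕ → ℝ} (hx : Weyl x) (c : ℝ) : Weyl (fun n => x n + c) := by
  intro h hh
  refine (hx h hh).congr fun N => ?_
  have e : ∀ n, ee (h * (x n + c)) = ee (h * x n) * ee (h * c) := fun n => by
    rw [← ee_add]
    congr 1
    ring
  simp only [e]
  rw [← Finset.sum_mul, norm_mul, norm_ee, mul_one]

theorem ncard_eq (N : ℕ) (P : ℕ → Prop) [DecidablePred P] :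
    {n : ℕ | n < N ∧ P n}.ncard = ((range N).filter P).card := by
  have e : {n : ℕ | n < N ∧ P n} = (((range N).filter P : Finset ℕ) : Set ℕ) := by
    ext n
    simp only [Set.mem_ofPred_eq, Finset.coe_filter, Finset.mem_range]
  rw [e, Set.ncard_coe_finset]

/-- **Counting.** -/
theorem near_integer {y : ℕ → ℝ} (hy : Weyl y) {u a b : ℝ} (hab : 0 ≤ a + b) (P : ℕ → Prop)
    (hP : ∀ n, P n → ∃ D : ℤ, y n + u - a ≤ D ∧ (D : ℝ) ≤ y n + u + b) : UpperLE P (a + b) := by
  classical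
  intro δ hδ
  rcases le_or_gt 1 (a + b + δ) with h1 | h1
  · refine ⟨0, fun N _ => ?_⟩
    rw [ncard_eq]
    have h2 : (((range N).filter P).card : ℝ) ≤ N := by
      have := card_filter_le (range N) P
      rw [card_range] at this
      exact_mod_cast this
    refine h2.trans ?_
    have h3 : (0 : ℝ) ≤ N := Nat.cast_nonneg N
    nlinarith
  · obtain ⟨N₀, h2⟩ := eventually_atTop.1
      (upper (fun n => y n + (u + b)) (weyl_shift hy _) 0 (a + b + δ / 2) (δ / 2) (by linarith)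
        (by positivity))
    refine ⟨N₀, fun N hN => ?_⟩
    have h3 := h2 N hN
    rw [ncard_eq]
    have h4 : ((range N).filter P).card ≤ cnt (fun n => y n + (u + b)) 0 (a + b + δ / 2) N := by
      unfold cnt
      refine card_le_card fun n hn => ?_
      rw [mem_filter] at hn ⊢
      refine ⟨hn.1, Int.fract_nonneg _, ?_⟩
      obtain ⟨D, hD1, hD2⟩ := hP n hn.2
      have h5 : ⌊y n + (u + b)⌋ = D := by
        rw [Int.floor_eq_iff]
        constructor
        · linarith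
        · linarith
      have h6 : Int.fract (y n + (u + b)) = y n + (u + b) - D := by
        rw [← h5]
        exact (Int.self_sub_floor _).symm
      rw [h6]
      linarith
    calc (((range N).filter P).card : ℝ) ≤ (cnt (fun n => y n + (u + b)) 0 (a + b + δ / 2) N : ℝ) := by
          exact_mod_cast h4
      _ ≤ (a + b + δ / 2 - 0 + δ / 2) * N := h3
      _ = (a + b + δ) * N := by ring

theorem ee_eq (t : ℝ) : Pool.Agent.H332R2.Lit.e t = ee t := by
  unfold Pool.Agent.H332R2.Lit.e ee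
  congr 1
  ring

/-- multiples of an irrational number stay away from the integers -/
theorem away {c : ℝ} (hc : Irrational c) (M : ℕ) :
    ∃ η : ℝ, 0 < η ∧ ∀ m ∈ Finset.Icc 1 M, η ≤ |(m : ℝ) * c - round ((m : ℝ) * c)| := by
  induction M with
  | zero => exact ⟨1, one_pos, fun m hm => by simp at hm⟩
  | succ M ih =>
    obtain ⟨η, h1, h2⟩ := ih
    have h3 : 0 < |((M + 1 : ℕ) : ℝ) * c - round (((M + 1 : ℕ) : ℝ) * c)| := by
      rw [abs_pos, sub_ne_zero]
      intro h
      have h4 := hc.natCast_mul (m := M + 1) (by omega)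
      rw [h] at h4
      exact (Int.not_irrational _) h4
    refine ⟨min η _, lt_min h1 h3, fun m hm => ?_⟩
    rw [Finset.mem_Icc] at hm
    rcases Nat.lt_or_ge m (M + 1) with h | h
    · exact (min_le_left _ _).trans (h2 m (Finset.mem_Icc.2 ⟨hm.1, by omega⟩))
    · have : m = M + 1 := by omega
      subst this
      exact min_le_right _ _

/-- **Weyl's theorem** for the values of integral polynomials. -/
theorem weyl_poly {s : ℝ} (hs : Irrational s) (P : ℤ[X]) (hP : 1 ≤ P.natDegree) :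
    Weyl (fun n => s * ((P.eval (n : ℤ) : ℤ) : ℝ)) := by
  intro h hh
  rw [Metric.tendsto_atTop]
  intro κ hκ
  obtain ⟨d, hd⟩ : ∃ d, P.natDegree = d + 1 := ⟨P.natDegree - 1, by omega⟩
  obtain ⟨M, hM, H⟩ := Pool.Agent.H238R3.UL.weyl_unif d (κ / 2) (by positivity)
  set Q : ℝ[X] := C ((h : ℝ) * s) * P.map (Int.castRingHom ℝ) with hQ
  have hlc : P.coeff (d + 1) ≠ 0 := by
    rw [← hd]
    exact leadingCoeff_ne_zero.2 (fun h0 => by rw [h0] at hP; simp at hP)
  have hcoef : Q.coeff (d + 1) = ((h : ℝ) * s) * (P.coeff (d + 1) : ℝ) := by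
    rw [hQ, coeff_C_mul, coeff_map]
    rfl
  have hirr : Irrational (Q.coeff (d + 1)) := by
    rw [hcoef]
    exact (hs.natCast_mul (by omega)).mul_intCast hlc
  obtain ⟨η, hη1, hη2⟩ := away hirr M
  obtain ⟨N₀, hN₀⟩ := H η hη1
  have hdeg : Q.natDegree ≤ d + 1 := by
    rw [hQ]
    refine (natDegree_C_mul_le _ _).trans ?_
    refine (natDegree_map_le).trans ?_
    rw [hd]
  refine ⟨max N₀ 1, fun N hN => ?_⟩
  have h1 := hN₀ Q hdeg hη2 N (le_trans (le_max_left _ _) hN)
  have hN1 : (1 : ℝ) ≤ N := by exact_mod_cast le_trans (le_max_right _ _) hN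
  have e : ∀ l : ℕ, Pool.Agent.H332R2.Lit.e (Q.eval (l : ℝ)) = ee (h * (s * ((P.eval (l : ℤ) : ℤ) : ℝ))) := by
    intro l
    rw [ee_eq]
    congr 1
    rw [hQ, eval_mul, eval_C, eval_map, mul_assoc]
    congr 2
    rw [eval₂_eq_eval_map, ← Int.cast_natCast (R := ℝ) l]
    exact (Polynomial.eval_intCast_map (Int.castRingHom ℝ) P (l : ℤ))
  simp only [e] at h1
  rw [Real.dist_eq, sub_zero, abs_of_nonneg (by positivity), div_lt_iff₀ (by linarith)]
  calc _ ≤ κ / 2 * N := h1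
    _ < κ * N := by nlinarith

/-- **All sequences at once.** -/
theorem sequences {s u a b : ℝ} (hs : Irrational s) (hab : 0 ≤ a + b) (Bad : ℕ → Prop)
    (hBad : ∀ m, Bad m → ∃ D : ℤ, s * m + u - a ≤ D ∧ (D : ℝ) ≤ s * m + u + b) :
    (∀ x : ℕ → ℕ, Weyl (fun n => s * x n) → UpperLE (fun n => Bad (x n)) (a + b)) ∧
    (∀ P : ℤ[X], 1 ≤ P.natDegree →
      UpperLE (fun n => ∃ m : ℕ, (m : ℤ) = P.eval (n : ℤ) ∧ Bad m) (a + b)) ∧
    UpperLE Bad (a + b) := by
  have h2 : ∀ P : ℤ[X], 1 ≤ P.natDegree →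
      UpperLE (fun n => ∃ m : ℕ, (m : ℤ) = P.eval (n : ℤ) ∧ Bad m) (a + b) := by
    intro P hP
    refine near_integer (weyl_poly hs P hP) hab (u := u) _ fun n hn => ?_
    obtain ⟨m, hm, hb⟩ := hn
    obtain ⟨D, hD1, hD2⟩ := hBad m hb
    have e : (m : ℝ) = ((P.eval (n : ℤ) : ℤ) : ℝ) := by
      rw [← hm]
      simp
    rw [e] at hD1 hD2
    exact ⟨D, hD1, hD2⟩
  refine ⟨fun x hx => near_integer hx hab _ fun n hn => hBad _ hn, h2, ?_⟩
  intro δ hδ
  obtain ⟨N₀, hN₀⟩ := h2 X (by simp) δ hδ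
  refine ⟨N₀, fun N hN => ?_⟩
  have h3 := hN₀ N hN
  have e : {n : ℕ | n < N ∧ ∃ m : ℕ, (m : ℤ) = (X : ℤ[X]).eval (n : ℤ) ∧ Bad m} =
      {n : ℕ | n < N ∧ Bad n} := by
    ext n
    simp only [Set.mem_ofPred_eq, eval_X]
    constructor
    · rintro ⟨h4, m, h5, h6⟩
      have : m = n := by exact_mod_cast h5
      rw [this] at h6
      exact ⟨h4, h6⟩
    · rintro ⟨h4, h5⟩
      exact ⟨h4, n, rfl, h5⟩
  rwa [e] at h3

end Pool.Agent.X134.UD
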