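import Mathlib
import Pool.Agent.H534R3.UD

/-!
# Weyl's criterion with weights
-/

set_option autoImplicit false

open MeasureTheory Filter Topology
open scoped Real

namespace Pool.Agent.X134.UD

open Pool.Agent.H534R3.UDist (ee norm_ee dist_coe)

/-- Weyl's condition with weights -/
def WeylW (w : ℕ → ℝ) (x : ℕ → ℝ) : Prop := ∀ h : ℕ, 1 ≤ h →
  Tendsto (fun N : ℕ => ‖∑ n ∈ Finset.range N, (w n : ℂ) * ee (h * x n)‖ / N) atTop (𝓝 0)

theorem meanW (w : ℕ → ℝ) (hw : ∀ n, 0 ≤ w n)
    (hw1 : Tendsto (fun N : ℕ => (∑ n ∈ Finset.range N, w n) / N) atTop (𝓝 1)) (x : ℕ → ℝ)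
    (hx : WeylW w x) (F : C(UnitAddCircle, ℂ)) :
    Tendsto (fun N : ℕ => (∑ n ∈ Finset.range N, (w n : ℂ) * F (x n : UnitAddCircle)) / (N : ℂ)) atTop
      (𝓝 (∫ z, F z ∂AddCircle.haarAddCircle)) := by
  -- the exponentials
  have h1 : ∀ m : ℤ, Tendsto (fun N : ℕ => (∑ n ∈ Finset.range N,
      (w n : ℂ) * (fourier m : C(UnitAddCircle, ℂ)) (x n : UnitAddCircle)) / (N : ℂ)) atTop
      (𝓝 (∫ z, (fourier m : C(UnitAddCircle, ℂ)) z ∂AddCircle.haarAddCircle)) := by
    intro m
    have hint : ∫ z, (fourier m : C(UnitAddCircle, ℂ)) z ∂AddCircle.haarAddCircle =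
        if m = 0 then 1 else 0 := by
      have e1 : fourierCoeff (T := 1) (fourier m : C(UnitAddCircle, ℂ)) 0 =
          ∫ z, (fourier m : C(UnitAddCircle, ℂ)) z ∂AddCircle.haarAddCircle := by
        simp [fourierCoeff]
      rw [← e1, fourierCoeff_fourier]
      by_cases hm : m = 0
      · rw [if_pos hm, hm, Pi.single_eq_same]
      · rw [if_neg hm, Pi.single_eq_of_ne (Ne.symm hm)]
    rw [hint]
    by_cases hm : m = 0
    · rw [if_pos hm, hm]
      have h2 := (Complex.continuous_ofReal.tendsto 1).comp hw1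
      rw [Complex.ofReal_one] at h2
      refine h2.congr fun N => ?_
      simp only [Function.comp, fourier_zero, mul_one]
      push_cast
      rfl
    · rw [if_neg hm, tendsto_zero_iff_norm_tendsto_zero]
      obtain ⟨h, hh, hmh⟩ : ∃ h : ℕ, 1 ≤ h ∧ (m = h ∨ m = -h) := by
        refine ⟨m.natAbs, ?_, ?_⟩
        · omega
        · omega
      refine (hx h hh).congr fun N => ?_
      rw [norm_div, Complex.norm_natCast]
      congr 1
      have hfe : ∀ t : ℝ, (fourier (h : ℤ) : C(UnitAddCircle, ℂ)) (t : UnitAddCircle) =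
          ee (h * t) := by
        intro t
        rw [fourier_coe_apply, ee]
        congr 1
        push_cast
        ring
      rcases hmh with rfl | rfl
      · congr 1
        exact Finset.sum_congr rfl fun n _ => by rw [hfe]
      · have e2 : ∑ n ∈ Finset.range N, (w n : ℂ) *
              (fourier (-(h : ℤ)) : C(UnitAddCircle, ℂ)) (x n : UnitAddCircle)
            = (starRingEnd ℂ) (∑ n ∈ Finset.range N, (w n : ℂ) * ee (h * x n)) := by
          rw [map_sum]
          exact Finset.sum_congr rfl fun n _ => by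
            rw [fourier_neg, hfe, map_mul, Complex.conj_ofReal]
        rw [e2, RCLike.norm_conj]
  have h2 : ∀ p ∈ Submodule.span ℂ (Set.range (fourier (T := 1))),
      Tendsto (fun N : ℕ => (∑ n ∈ Finset.range N, (w n : ℂ) * p (x n : UnitAddCircle)) / (N : ℂ)) atTop
      (𝓝 (∫ z, p z ∂AddCircle.haarAddCircle)) := by
    intro p hp
    induction hp using Submodule.span_induction with
    | mem p hp =>
      obtain ⟨m, rfl⟩ := hp
      exact h1 m
    | zero => simp
    | add p q _ _ hp hq =>
      have e1 : ∫ z, (p + q) z ∂AddCircle.haarAddCircle =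
          ∫ z, p z ∂AddCircle.haarAddCircle + ∫ z, q z ∂(AddCircle.haarAddCircle (T := 1)) := by
        rw [← integral_add]
        · rfl
        · exact (map_continuous p).integrable_of_hasCompactSupport (HasCompactSupport.of_compactSpace _)
        · exact (map_continuous q).integrable_of_hasCompactSupport (HasCompactSupport.of_compactSpace _)
      rw [e1]
      refine (hp.add hq).congr fun N => ?_
      rw [← add_div, ← Finset.sum_add_distrib]
      congr 1
      exact Finset.sum_congr rfl fun n _ => by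
        rw [← mul_add]
        rfl
    | smul c p _ hp =>
      have e1 : ∫ z, (c • p) z ∂AddCircle.haarAddCircle =
          c * ∫ z, p z ∂(AddCircle.haarAddCircle (T := 1)) := by
        rw [← integral_const_mul]
        rfl
      rw [e1]
      refine (hp.const_mul c).congr fun N => ?_
      rw [← mul_div_assoc, Finset.mul_sum]
      congr 1
      exact Finset.sum_congr rfl fun n _ => by
        rw [mul_left_comm]
        rfl
  rw [Metric.tendsto_atTop]
  intro ε hε
  have h3 : F ∈ (Submodule.span ℂ (Set.range (fourier (T := 1)))).topologicalClosure := by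
    rw [span_fourier_closure_eq_top]
    trivial
  have h4 : F ∈ closure ((Submodule.span ℂ (Set.range (fourier (T := 1))) : Submodule ℂ
      C(UnitAddCircle, ℂ)) : Set C(UnitAddCircle, ℂ)) := h3
  rw [Metric.mem_closure_iff] at h4
  obtain ⟨p, hp, hFp⟩ := h4 (ε / 8) (by positivity)
  have h5 := Metric.tendsto_atTop.1 (h2 p hp) (ε / 4) (by positivity)
  obtain ⟨N₀, hN₀⟩ := h5
  obtain ⟨N₁, hN₁⟩ := Metric.tendsto_atTop.1 hw1 1 one_pos
  have hpt : ∀ z, ‖F z - p z‖ ≤ ε / 8 := fun z => by
    have := ContinuousMap.norm_coe_le_norm (F - p) z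
    rw [← dist_eq_norm] at this
    exact this.trans (by rw [dist_eq_norm] at hFp ⊢; exact hFp.le)
  refine ⟨max N₀ N₁ + 1, fun N hN => ?_⟩
  have h6 := hN₀ N (by have := le_max_left N₀ N₁; omega)
  have h6' := hN₁ N (by have := le_max_right N₀ N₁; omega)
  have hN0 : (0 : ℝ) < N := by exact_mod_cast (by omega : 0 < N)
  have hsum : ∑ n ∈ Finset.range N, w n ≤ 2 * N := by
    rw [Real.dist_eq, abs_lt] at h6'
    have h7 : (∑ n ∈ Finset.range N, w n) / N ≤ 2 := by linarith [h6'.2]
    rwa [div_le_iff₀ hN0] at h7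
  have h7 : ‖(∑ n ∈ Finset.range N, (w n : ℂ) * F (x n : UnitAddCircle)) / (N : ℂ) -
      (∑ n ∈ Finset.range N, (w n : ℂ) * p (x n : UnitAddCircle)) / (N : ℂ)‖ ≤ ε / 4 := by
    rw [← sub_div, norm_div, Complex.norm_natCast, div_le_iff₀ hN0, ← Finset.sum_sub_distrib]
    refine (norm_sum_le _ _).trans ?_
    calc ∑ n ∈ Finset.range N, ‖(w n : ℂ) * F (x n : UnitAddCircle) - (w n : ℂ) * p (x n : UnitAddCircle)‖
        ≤ ∑ n ∈ Finset.range N, w n * (ε / 8) := by
          refine Finset.sum_le_sum fun n _ => ?_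
          rw [← mul_sub, norm_mul, Complex.norm_real, Real.norm_of_nonneg (hw n)]
          exact mul_le_mul_of_nonneg_left (hpt _) (hw n)
      _ = (∑ n ∈ Finset.range N, w n) * (ε / 8) := by rw [Finset.sum_mul]
      _ ≤ (2 * N) * (ε / 8) := mul_le_mul_of_nonneg_right hsum (by positivity)
      _ = ε / 4 * N := by ring
  have h8 : ‖(∫ z, p z ∂AddCircle.haarAddCircle) - ∫ z, F z ∂(AddCircle.haarAddCircle (T := 1))‖
      ≤ ε / 4 := by
    rw [← integral_sub]
    · refine (norm_integral_le_of_norm_le_const (C := ε / 4) (ae_of_all _ fun z => ?_)).trans ?_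
      · rw [norm_sub_rev]
        exact (hpt z).trans (by linarith)
      · simp
    · exact (map_continuous p).integrable_of_hasCompactSupport (HasCompactSupport.of_compactSpace _)
    · exact (map_continuous F).integrable_of_hasCompactSupport (HasCompactSupport.of_compactSpace _)
  rw [dist_eq_norm] at h6 ⊢
  set a := (∑ n ∈ Finset.range N, (w n : ℂ) * F (x n : UnitAddCircle)) / (N : ℂ)
  set b := (∑ n ∈ Finset.range N, (w n : ℂ) * p (x n : UnitAddCircle)) / (N : ℂ)
  set c := ∫ z, p z ∂(AddCircle.haarAddCircle (T := 1))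
  set d := ∫ z, F z ∂(AddCircle.haarAddCircle (T := 1))
  have h9 : a - d = (a - b) + (b - c) + (c - d) := by ring
  rw [h9]
  refine lt_of_le_of_lt (norm_add₃_le) ?_
  linarith

open Classical in
theorem upperW (w : ℕ → ℝ) (hw : ∀ n, 0 ≤ w n)
    (hw1 : Tendsto (fun N : ℕ => (∑ n ∈ Finset.range N, w n) / N) atTop (𝓝 1)) (x : ℕ → ℝ)
    (hx : WeylW w x) (s t η : ℝ) (hst : s ≤ t) (hη : 0 < η) :
    ∀ᶠ N : ℕ in atTop, ∑ n ∈ (Finset.range N).filter (fun n => s ≤ Int.fract (x n) ∧ Int.fract (x n) < t),
      w n ≤ (t - s + η) * N := by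
  set c : ℝ := (s + t) / 2 with hc
  set r : ℝ := (t - s) / 2 with hr
  set η' : ℝ := η / 4 with hη'
  have hη'0 : 0 < η' := by positivity
  set f : UnitAddCircle → ℝ := fun z => max 0 (min 1 (1 + (r - dist z (c : UnitAddCircle)) / η')) with hf
  have hfc : Continuous f := by
    refine continuous_const.max (continuous_const.min ?_)
    exact continuous_const.add ((continuous_const.sub (continuous_id.dist continuous_const)).div_const _)
  have hf0 : ∀ z, 0 ≤ f z := fun z => le_max_left _ _
  have hf1 : ∀ z, f z ≤ 1 := fun z => max_le zero_le_one (min_le_left _ _)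
  set F : C(UnitAddCircle, ℂ) := ⟨fun z => (f z : ℂ), Complex.continuous_ofReal.comp hfc⟩ with hF
  have hm := meanW w hw hw1 x hx F
  have hint : ∫ z, F z ∂AddCircle.haarAddCircle = ((∫ z, f z ∂(AddCircle.haarAddCircle (T := 1)) : ℝ) : ℂ) :=
    integral_ofReal
  have hm2 : Tendsto (fun N : ℕ => (∑ n ∈ Finset.range N, w n * f (x n : UnitAddCircle)) / (N : ℝ)) atTop
      (𝓝 (∫ z, f z ∂(AddCircle.haarAddCircle (T := 1)))) := by
    rw [hint] at hm
    have h1 := (Complex.continuous_re.tendsto _).comp hm
    rw [Complex.ofReal_re] at h1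
    refine h1.congr fun N => ?_
    simp only [Function.comp_apply, hF, ContinuousMap.coe_mk]
    have e : ∑ n ∈ Finset.range N, (w n : ℂ) * (f (x n : UnitAddCircle) : ℂ) =
        ((∑ n ∈ Finset.range N, w n * f (x n : UnitAddCircle) : ℝ) : ℂ) := by push_cast; rfl
    rw [e, ← Complex.ofReal_natCast, ← Complex.ofReal_div, Complex.ofReal_re]
  have hbound : ∫ z, f z ∂(AddCircle.haarAddCircle (T := 1)) ≤ 2 * (r + η') := by
    have h1 : ∀ z, f z ≤ Set.indicator (Metric.closedBall (c : UnitAddCircle) (r + η')) (fun _ => (1 : ℝ)) z := by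
      intro z
      by_cases hz : z ∈ Metric.closedBall (c : UnitAddCircle) (r + η')
      · rw [Set.indicator_of_mem hz]
        exact hf1 z
      · rw [Set.indicator_of_notMem hz]
        rw [Metric.mem_closedBall, not_le] at hz
        refine max_le le_rfl ((min_le_right _ _).trans ?_)
        have h2 : (r - dist z (c : UnitAddCircle)) / η' ≤ -1 := by
          rw [div_le_iff₀ hη'0]
          linarith
        linarith
    have h2 : ∫ z, f z ∂(AddCircle.haarAddCircle (T := 1)) ≤
        ∫ z, Set.indicator (Metric.closedBall (c : UnitAddCircle) (r + η')) (fun _ => (1 : ℝ)) z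
          ∂(AddCircle.haarAddCircle (T := 1)) := by
      refine integral_mono ?_ ?_ h1
      · exact hfc.integrable_of_hasCompactSupport (HasCompactSupport.of_compactSpace _)
      · exact (integrable_const 1).indicator measurableSet_closedBall
    refine h2.trans ?_
    rw [integral_indicator measurableSet_closedBall, setIntegral_const, smul_eq_mul, mul_one]
    have h3 : (AddCircle.haarAddCircle (T := 1)) = (volume : Measure UnitAddCircle) := by
      rw [AddCircle.volume_eq_smul_haarAddCircle]
      simp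
    rw [h3, Measure.real, AddCircle.volume_closedBall]
    rw [ENNReal.toReal_ofReal]
    · exact min_le_right _ _
    · refine le_min zero_le_one ?_
      have : 0 ≤ r := by rw [hr]; linarith
      positivity
  have hev : ∀ᶠ N : ℕ in atTop,
      (∑ n ∈ Finset.range N, w n * f (x n : UnitAddCircle)) / (N : ℝ) < t - s + η := by
    refine hm2.eventually (gt_mem_nhds ?_)
    refine lt_of_le_of_lt hbound ?_
    rw [hr, hη']
    linarith
  filter_upwards [hev, eventually_gt_atTop 0] with N hN hN0
  have hN0' : (0 : ℝ) < N := by exact_mod_cast hN0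
  rw [div_lt_iff₀ hN0'] at hN
  refine le_trans ?_ hN.le
  rw [Finset.sum_filter]
  refine Finset.sum_le_sum fun n _ => ?_
  split_ifs with h
  · have h1 : dist (x n : UnitAddCircle) (c : UnitAddCircle) ≤ r := by
      refine (dist_coe _ _).trans ?_
      rw [abs_le, hc, hr]
      constructor <;> linarith [h.1, h.2]
    have h2 : 1 ≤ 1 + (r - dist (x n : UnitAddCircle) (c : UnitAddCircle)) / η' := by
      have : 0 ≤ (r - dist (x n : UnitAddCircle) (c : UnitAddCircle)) / η' :=
        div_nonneg (by linarith) hη'0.le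
      linarith
    have h3 : 1 ≤ f (x n : UnitAddCircle) := le_max_of_le_right (le_min le_rfl h2)
    calc w n = w n * 1 := (mul_one _).symm
      _ ≤ w n * f (x n : UnitAddCircle) := mul_le_mul_of_nonneg_left h3 (hw n)
  · exact mul_nonneg (hw n) (hf0 _)

end Pool.Agent.X134.UD
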