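import Mathlib
import Pool.Agent.X134.UD.Wt
import Pool.Agent.X134.UD.Seq
import Pool.Agent.W110.HV.Vino
import Pool.Agent.Cov.PNT

/-!
# Primes `p` for which `s p + u` is close to an integer, for badly approximable `s`
-/

set_option autoImplicit false

namespace Pool.Agent.X134.UD

open Filter Topology Finset
open Pool.Agent.H534R3.UDist (ee norm_ee)

/-- `s` is badly approximable -/
def BadlyApprox (s : ℝ) : Prop :=
  ∃ C : ℝ, 0 < C ∧ ∀ (q : ℕ) (c : ℤ), 0 < q → C / (q : ℝ) ^ 2 ≤ |s - c / q|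

/-- among the primes the upper density of the `p` with `P p` is at most `β` -/
def UpperLEPrimes (P : ℕ → Prop) (β : ℝ) : Prop :=
  ∀ δ : ℝ, 0 < δ → ∃ N₀ : ℕ, ∀ N : ℕ, N₀ ≤ N →
    ({p : ℕ | p ≤ N ∧ p.Prime ∧ P p}.ncard : ℝ) ≤ (β + δ) * {p : ℕ | p ≤ N ∧ p.Prime}.ncard

/-- the weights -/
noncomputable def lam (n : ℕ) : ℝ := ArithmeticFunction.vonMangoldt (n + 1)

theorem sum_shift {M : Type} [AddCommMonoid M] (f : ℕ → M) (N : ℕ) :
    ∑ n ∈ range N, f (n + 1) = ∑ n ∈ Icc 1 N, f n := by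
  rw [range_eq_Ico, Finset.sum_Ico_add' f 0 N 1]
  rfl

theorem lam_mean : Tendsto (fun N : ℕ => (∑ n ∈ range N, lam n) / N) atTop (𝓝 1) := by
  have h := Pool.Agent.Cov.PNT.psi_div_tendsto.comp (tendsto_natCast_atTop_atTop (R := ℝ))
  refine h.congr fun N => ?_
  simp only [Function.comp]
  congr 1
  unfold lam
  rw [sum_shift (fun n => ArithmeticFunction.vonMangoldt n), Chebyshev.psi, Nat.floor_natCast]
  rfl

theorem ee_conv (t : ℝ) : Pool.Agent.Helper112.ee t = ee t := by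
  unfold Pool.Agent.Helper112.ee ee
  congr 1
  ring

theorem weylW_primes {s : ℝ} (hs : BadlyApprox s) : WeylW lam (fun n => s * ((n + 1 : ℕ) : ℝ)) := by
  intro h hh
  obtain ⟨C, hC, hdio⟩ := hs
  have hh0 : (0 : ℝ) < h := by exact_mod_cast hh
  obtain ⟨N₀, hN₀⟩ := Pool.Agent.W110.HV.vino (1 / 10) (by norm_num) le_rfl
  have hev : ∀ᶠ N : ℕ in atTop, (N : ℝ) ^ (1 / 10 : ℝ) ≤ C / h * (N : ℝ) ^ (1 / 2 : ℝ) := by
    have h1 : Tendsto (fun N : ℕ => (N : ℝ) ^ (2 / 5 : ℝ)) atTop atTop :=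
      (tendsto_rpow_atTop (by norm_num)).comp tendsto_natCast_atTop_atTop
    filter_upwards [h1.eventually_ge_atTop (h / C), eventually_gt_atTop 0] with N h2 h3
    have hN : (0 : ℝ) < N := by exact_mod_cast h3
    have e : (N : ℝ) ^ (1 / 2 : ℝ) = (N : ℝ) ^ (1 / 10 : ℝ) * (N : ℝ) ^ (2 / 5 : ℝ) := by
      rw [← Real.rpow_add hN]
      norm_num
    rw [e]
    have h4 : 1 ≤ C / h * (N : ℝ) ^ (2 / 5 : ℝ) := by
      calc (1 : ℝ) = C / h * (h / C) := by field_simp
        _ ≤ _ := mul_le_mul_of_nonneg_left h2 (by positivity)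
    have h5 : 0 < (N : ℝ) ^ (1 / 10 : ℝ) := Real.rpow_pos_of_pos hN _
    nlinarith
  have hlim : Tendsto (fun N : ℕ => (N : ℝ) ^ (-(9 / 200) : ℝ)) atTop (𝓝 0) :=
    (tendsto_rpow_neg_atTop (by norm_num)).comp tendsto_natCast_atTop_atTop
  refine squeeze_zero' (Eventually.of_forall fun N => by positivity) ?_ hlim
  filter_upwards [hev, eventually_ge_atTop (max N₀ 1)] with N h1 h2
  have hN1 : 1 ≤ N := le_trans (le_max_right _ _) h2
  have hN0 : (0 : ℝ) < N := by exact_mod_cast hN1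
  have hsq : 0 < Nat.sqrt N := Nat.sqrt_pos.2 hN1
  obtain ⟨q, hq1, hq2⟩ := Real.exists_rat_abs_sub_le_and_den_le ((h : ℝ) * s) hsq
  have hqd : (0 : ℝ) < q.den := by exact_mod_cast q.pos
  have hcast : ((q : ℚ) : ℝ) = (q.num : ℝ) / (q.den : ℝ) := by
    conv_lhs => rw [← Rat.num_div_den q]
    push_cast
    rfl
  rw [hcast] at hq1
  have hsqN : ((Nat.sqrt N : ℕ) : ℝ) ≤ (N : ℝ) ^ (1 / 2 : ℝ) := by
    rw [← Real.sqrt_eq_rpow]
    exact Real.nat_sqrt_le_real_sqrt
  have hsqN' : (N : ℝ) ^ (1 / 2 : ℝ) ≤ (Nat.sqrt N : ℕ) + 1 := by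
    rw [← Real.sqrt_eq_rpow]
    exact Real.real_sqrt_le_nat_sqrt_succ
  have hqle : (q.den : ℝ) ≤ (Nat.sqrt N : ℕ) := by exact_mod_cast hq2
  -- the lower bound for the denominator
  have hlow : C / h * ((Nat.sqrt N : ℕ) + 1) ≤ q.den := by
    have h3 := hdio (h * q.den) q.num (Nat.mul_pos hh q.pos)
    have e1 : |(h : ℝ) * s - q.num / q.den| = h * |s - q.num / ((h * q.den : ℕ) : ℝ)| := by
      rw [← abs_of_pos hh0, ← abs_mul, abs_of_pos hh0]
      congr 1
      push_cast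
      field_simp
    rw [e1] at hq1
    have h4 : (h : ℝ) * (C / ((h * q.den : ℕ) : ℝ) ^ 2) ≤ 1 / (((Nat.sqrt N : ℕ) + 1) * q.den) :=
      (mul_le_mul_of_nonneg_left h3 hh0.le).trans hq1
    push_cast at h4
    rw [le_div_iff₀ (by positivity)] at h4
    have e2 : (h : ℝ) * (C / ((h : ℝ) * q.den) ^ 2) * (((Nat.sqrt N : ℕ) + 1) * q.den) =
        (C / h * ((Nat.sqrt N : ℕ) + 1)) / q.den := by field_simp
    rw [e2, div_le_one hqd] at h4
    exact h4
  have hup : |(h : ℝ) * s - q.num / q.den| ≤ 1 / ((q.den : ℕ) : ℝ) ^ 2 := by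
    refine hq1.trans ?_
    apply one_div_le_one_div_of_le (by positivity)
    rw [pow_two]
    exact mul_le_mul_of_nonneg_right (by linarith) hqd.le
  have h3 := hN₀ N (le_trans (le_max_left _ _) h2) q.den (by
      calc (N : ℝ) ^ (1 / 10 : ℝ) ≤ C / h * (N : ℝ) ^ (1 / 2 : ℝ) := h1
        _ ≤ C / h * ((Nat.sqrt N : ℕ) + 1) := mul_le_mul_of_nonneg_left hsqN' (by positivity)
        _ ≤ _ := hlow) (by
      refine hqle.trans (hsqN.trans ?_)
      exact Real.rpow_le_rpow_of_exponent_le (by exact_mod_cast hN1) (by norm_num)) q.num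
    (by
      have := q.reduced
      rw [Int.isCoprime_iff_gcd_eq_one]
      exact this) ((h : ℝ) * s) hup
  have e3 : ∑ n ∈ range N, ((lam n : ℝ) : ℂ) * ee ((h : ℝ) * (s * ((n + 1 : ℕ) : ℝ))) =
      ∑ n ∈ Icc 1 N, ((ArithmeticFunction.vonMangoldt n : ℝ) : ℂ) *
        Pool.Agent.Helper112.ee ((n : ℝ) * ((h : ℝ) * s)) := by
    rw [← sum_shift]
    refine Finset.sum_congr rfl fun n _ => ?_
    rw [ee_conv]
    unfold lam
    congr 2
    push_cast
    ring
  rw [e3, div_le_iff₀ hN0]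
  refine h3.trans (le_of_eq ?_)
  rw [show (1 : ℝ) - 9 / 20 * (1 / 10) = -(9 / 200) + 1 by norm_num, Real.rpow_add hN0, Real.rpow_one]

theorem weylW_shift {w x : ℕ → ℝ} (hx : WeylW w x) (c : ℝ) : WeylW w (fun n => x n + c) := by
  intro h hh
  refine (hx h hh).congr fun N => ?_
  have e : ∀ n, (w n : ℂ) * ee (h * (x n + c)) = ((w n : ℂ) * ee (h * x n)) * ee (h * c) := fun n => by
    rw [mul_assoc, ← ee_add]
    congr 2
    ring
  simp only [e]
  rw [← Finset.sum_mul, norm_mul, norm_ee, mul_one]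

theorem lam_nonneg (n : ℕ) : 0 ≤ lam n := ArithmeticFunction.vonMangoldt_nonneg

theorem primes_ncard (N : ℕ) (P : ℕ → Prop) [DecidablePred P] :
    {p : ℕ | p ≤ N ∧ p.Prime ∧ P p}.ncard = ((Icc 1 N).filter (fun p => p.Prime ∧ P p)).card := by
  have e : {p : ℕ | p ≤ N ∧ p.Prime ∧ P p} =
      (((Icc 1 N).filter (fun p => p.Prime ∧ P p) : Finset ℕ) : Set ℕ) := by
    ext p
    simp only [Set.mem_ofPred_eq, Finset.coe_filter, Finset.mem_Icc]
    constructor
    · rintro ⟨h1, h2, h3⟩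
      exact ⟨⟨h2.one_le, h1⟩, h2, h3⟩
    · rintro ⟨⟨_, h1⟩, h2, h3⟩
      exact ⟨h1, h2, h3⟩
  rw [e, Set.ncard_coe_finset]

/-- **Primes.** -/
theorem primes {s u a b : ℝ} (hs : BadlyApprox s) (hab : 0 ≤ a + b) (Bad : ℕ → Prop)
    (hBad : ∀ m, Bad m → ∃ D : ℤ, s * m + u - a ≤ D ∧ (D : ℝ) ≤ s * m + u + b) :
    UpperLEPrimes Bad (a + b) := by
  classical
  intro δ hδ
  rcases le_or_gt 1 (a + b + δ) with h1 | h1
  · refine ⟨0, fun N _ => ?_⟩
    have h2 : {p : ℕ | p ≤ N ∧ p.Prime ∧ Bad p}.ncard ≤ {p : ℕ | p ≤ N ∧ p.Prime}.ncard :=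
      Set.ncard_le_ncard (fun p hp => ⟨hp.1, hp.2.1⟩) ((Set.finite_Iic N).subset fun p hp => hp.1)
    have h3 : (({p : ℕ | p ≤ N ∧ p.Prime ∧ Bad p}.ncard : ℕ) : ℝ) ≤
        ({p : ℕ | p ≤ N ∧ p.Prime}.ncard : ℝ) := by exact_mod_cast h2
    have h4 : (0 : ℝ) ≤ ({p : ℕ | p ≤ N ∧ p.Prime}.ncard : ℝ) := Nat.cast_nonneg _
    nlinarith
  · -- `t + δ / 4 ≤ 1`
    obtain ⟨t, ht⟩ : ∃ t, t = a + b + δ / 8 := ⟨_, rfl⟩
    have hev := upperW lam lam_nonneg lam_mean (fun n => s * ((n + 1 : ℕ) : ℝ) + (u + b))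
      (weylW_shift (weylW_primes hs) _) 0 t (δ / 8) (by rw [ht]; linarith) (by positivity)
    -- the number of the primes
    have hth := Pool.Agent.Cov.PNT.theta_div_tendsto.comp (tendsto_natCast_atTop_atTop (R := ℝ))
    have hth2 : ∀ᶠ N : ℕ in atTop, (1 - δ / 8) * N ≤ Chebyshev.theta (N : ℝ) := by
      have h2 : ∀ᶠ N : ℕ in atTop, 1 - δ / 8 < Chebyshev.theta (N : ℝ) / N :=
        hth.eventually (lt_mem_nhds (by linarith))
      filter_upwards [h2, eventually_gt_atTop 0] with N h3 h4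
      have hN : (0 : ℝ) < N := by exact_mod_cast h4
      rw [lt_div_iff₀ hN] at h3
      exact h3.le
    -- the small primes
    obtain ⟨σ, hσ⟩ : ∃ σ, σ = δ / 8 := ⟨_, rfl⟩
    have hσ0 : 0 < σ := by rw [hσ]; positivity
    have hsmall : ∀ᶠ N : ℕ in atTop, (N : ℝ) ^ (1 - σ) * Real.log N ≤ σ * N := by
      have h2 := (isLittleO_log_rpow_atTop hσ0).def hσ0
      have h3 := (tendsto_natCast_atTop_atTop (R := ℝ)).eventually h2
      filter_upwards [h3, eventually_ge_atTop 1] with N h4 h5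
      have hN1 : (1 : ℝ) ≤ N := by exact_mod_cast h5
      have hN0 : (0 : ℝ) < N := by linarith
      rw [Real.norm_of_nonneg (Real.log_nonneg hN1),
        Real.norm_of_nonneg (Real.rpow_nonneg hN0.le _)] at h4
      calc (N : ℝ) ^ (1 - σ) * Real.log N ≤ (N : ℝ) ^ (1 - σ) * (σ * (N : ℝ) ^ σ) :=
            mul_le_mul_of_nonneg_left h4 (Real.rpow_nonneg hN0.le _)
        _ = σ * ((N : ℝ) ^ (1 - σ) * (N : ℝ) ^ σ) := by ring
        _ = σ * N := by rw [← Real.rpow_add hN0, sub_add_cancel, Real.rpow_one]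
    obtain ⟨N₀, hN₀⟩ := eventually_atTop.1 (hev.and (hth2.and (hsmall.and (eventually_ge_atTop 3))))
    refine ⟨N₀, fun N hN => ?_⟩
    obtain ⟨h2, h3, h4, h5⟩ := hN₀ N hN
    have hN3 : (3 : ℝ) ≤ N := by exact_mod_cast h5
    have hN0 : (0 : ℝ) < N := by linarith
    have hlog : 0 < Real.log N := Real.log_pos (by linarith)
    -- the bad primes weighted by the logarithm
    have hw : ∑ p ∈ (Icc 1 N).filter (fun p => p.Prime ∧ Bad p), Real.log p ≤ (a + b + δ / 4) * N := by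
      refine le_trans ?_ (h2.trans (le_of_eq (by rw [ht]; ring)))
      have e1 : ∑ n ∈ (range N).filter (fun n => 0 ≤ Int.fract (s * ((n + 1 : ℕ) : ℝ) + (u + b)) ∧
          Int.fract (s * ((n + 1 : ℕ) : ℝ) + (u + b)) < t), lam n =
          ∑ n ∈ (Icc 1 N).filter (fun n : ℕ => Int.fract (s * (n : ℝ) + (u + b)) < t),
            ArithmeticFunction.vonMangoldt n := by
        rw [Finset.sum_filter, Finset.sum_filter, ← sum_shift]
        refine Finset.sum_congr rfl fun n _ => ?_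
        simp only [Int.fract_nonneg, true_and]
        rfl
      rw [e1]
      calc ∑ p ∈ (Icc 1 N).filter (fun p => p.Prime ∧ Bad p), Real.log p
          = ∑ p ∈ (Icc 1 N).filter (fun p => p.Prime ∧ Bad p), ArithmeticFunction.vonMangoldt p := by
            refine Finset.sum_congr rfl fun p hp => ?_
            rw [mem_filter] at hp
            rw [ArithmeticFunction.vonMangoldt_apply_prime hp.2.1]
        _ ≤ _ := by
            refine Finset.sum_le_sum_of_subset_of_nonneg (fun p hp => ?_)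
              (fun _ _ _ => ArithmeticFunction.vonMangoldt_nonneg)
            rw [mem_filter] at hp ⊢
            refine ⟨hp.1, ?_⟩
            obtain ⟨D, hD1, hD2⟩ := hBad p hp.2.2
            have h6 : ⌊s * (p : ℝ) + (u + b)⌋ = D := by
              rw [Int.floor_eq_iff]
              constructor <;> linarith
            have h7 : Int.fract (s * (p : ℝ) + (u + b)) = s * (p : ℝ) + (u + b) - D := by
              rw [← h6]
              exact (Int.self_sub_floor _).symm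
            rw [h7, ht]
            linarith
    -- from the logarithms to the number
    have hnum : (({p : ℕ | p ≤ N ∧ p.Prime ∧ Bad p}.ncard : ℕ) : ℝ) * ((1 - σ) * Real.log N) ≤
        (a + b + δ / 4) * N + σ * N := by
      rw [primes_ncard]
      have hcard : (((Icc 1 N).filter (fun p => p.Prime ∧ Bad p)).card : ℝ) =
          ∑ p ∈ (Icc 1 N).filter (fun p => p.Prime ∧ Bad p), (1 : ℝ) := by
        rw [Finset.sum_const, nsmul_eq_mul, mul_one]
      rw [hcard, Finset.sum_mul]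
      have hterm : ∀ p ∈ (Icc 1 N).filter (fun p => p.Prime ∧ Bad p),
          1 * ((1 - σ) * Real.log N) ≤ Real.log p +
            (if (p : ℝ) ≤ (N : ℝ) ^ (1 - σ) then Real.log N else 0) := by
        intro p hp
        rw [mem_filter, mem_Icc] at hp
        have hp1 : (1 : ℝ) ≤ p := by exact_mod_cast hp.1.1
        split_ifs with hif
        · have h6 := Real.log_nonneg hp1
          nlinarith
        · rw [not_le] at hif
          have h6 := Real.log_le_log (Real.rpow_pos_of_pos hN0 _) hif.le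
          rw [Real.log_rpow hN0] at h6
          linarith
      refine (Finset.sum_le_sum hterm).trans ?_
      rw [Finset.sum_add_distrib]
      refine add_le_add hw ?_
      rw [← Finset.sum_filter, Finset.sum_const, nsmul_eq_mul]
      refine le_trans ?_ h4
      refine mul_le_mul_of_nonneg_right ?_ hlog.le
      have h6 : (((Icc 1 N).filter (fun p => p.Prime ∧ Bad p)).filter
          (fun p : ℕ => (p : ℝ) ≤ (N : ℝ) ^ (1 - σ))).card ≤ ⌊(N : ℝ) ^ (1 - σ)⌋₊ := by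
        have h7 : ((Icc 1 N).filter (fun p => p.Prime ∧ Bad p)).filter
            (fun p : ℕ => (p : ℝ) ≤ (N : ℝ) ^ (1 - σ)) ⊆ Icc 1 ⌊(N : ℝ) ^ (1 - σ)⌋₊ := by
          intro p hp
          rw [mem_filter, mem_filter, mem_Icc] at hp
          rw [mem_Icc]
          exact ⟨hp.1.1.1, Nat.le_floor hp.2⟩
        have h8 := card_le_card h7
        rwa [Nat.card_Icc, Nat.add_sub_cancel] at h8
      calc _ ≤ ((⌊(N : ℝ) ^ (1 - σ)⌋₊ : ℕ) : ℝ) := by exact_mod_cast h6
        _ ≤ _ := Nat.floor_le (Real.rpow_nonneg hN0.le _)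
    -- the number of all primes
    have hall : (1 - δ / 8) * N ≤ ({p : ℕ | p ≤ N ∧ p.Prime}.ncard : ℝ) * Real.log N := by
      refine h3.trans ?_
      have e2 : {p : ℕ | p ≤ N ∧ p.Prime} = {p : ℕ | p ≤ N ∧ p.Prime ∧ True} := by
        ext p
        simp
      rw [e2, primes_ncard, Chebyshev.theta, Nat.floor_natCast]
      have hcard : (((Icc 1 N).filter (fun p => p.Prime ∧ True)).card : ℝ) * Real.log N =
          ∑ _p ∈ (Icc 1 N).filter (fun p => p.Prime ∧ True), Real.log N := by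
        rw [Finset.sum_const, nsmul_eq_mul]
      rw [hcard]
      have e3 : (Ioc 0 N).filter Nat.Prime = (Icc 1 N).filter (fun p => p.Prime ∧ True) := by
        ext p
        simp only [mem_filter, mem_Ioc, mem_Icc, and_true]
        constructor
        · rintro ⟨⟨h6, h7⟩, h8⟩
          exact ⟨⟨h6, h7⟩, h8⟩
        · rintro ⟨⟨h6, h7⟩, h8⟩
          exact ⟨⟨h6, h7⟩, h8⟩
      rw [e3]
      refine Finset.sum_le_sum fun p hp => ?_
      rw [mem_filter, mem_Icc] at hp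
      exact Real.log_le_log (by exact_mod_cast hp.1.1) (by exact_mod_cast hp.1.2)
    -- conclusion
    obtain ⟨x, hx⟩ : ∃ x, x = (({p : ℕ | p ≤ N ∧ p.Prime ∧ Bad p}.ncard : ℕ) : ℝ) := ⟨_, rfl⟩
    obtain ⟨y, hy⟩ : ∃ y, y = (({p : ℕ | p ≤ N ∧ p.Prime}.ncard : ℕ) : ℝ) := ⟨_, rfl⟩
    rw [← hx] at hnum ⊢
    rw [← hy] at hall ⊢
    have hx0 : 0 ≤ x := by rw [hx]; positivity
    have hy0 : 0 ≤ y := by rw [hy]; positivity
    have hδ1 : δ < 1 := by linarith
    -- x (1 - σ) log N ≤ (a + b + 3δ/8) N,  (1 - δ/8) N ≤ y log N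
    have hX : x * (1 - δ / 8) * (1 - δ / 8) * Real.log N ≤ (a + b + 3 * δ / 8) * (y * Real.log N) := by
      have h6 : x * (1 - δ / 8) * Real.log N ≤ (a + b + 3 * δ / 8) * N := by
        rw [hσ] at hnum
        nlinarith
      have h7 : 0 ≤ a + b + 3 * δ / 8 := by linarith
      have h8 : 0 ≤ 1 - δ / 8 := by linarith
      calc x * (1 - δ / 8) * (1 - δ / 8) * Real.log N
          = (1 - δ / 8) * (x * (1 - δ / 8) * Real.log N) := by ring
        _ ≤ (1 - δ / 8) * ((a + b + 3 * δ / 8) * N) := mul_le_mul_of_nonneg_left h6 h8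
        _ = (a + b + 3 * δ / 8) * ((1 - δ / 8) * N) := by ring
        _ ≤ _ := mul_le_mul_of_nonneg_left hall h7
    have hX2 : x * (1 - δ / 8) * (1 - δ / 8) ≤ (a + b + 3 * δ / 8) * y := by
      have h6 : (x * (1 - δ / 8) * (1 - δ / 8)) * Real.log N ≤ ((a + b + 3 * δ / 8) * y) * Real.log N := by
        rw [mul_assoc (a + b + 3 * δ / 8)]
        exact hX
      exact le_of_mul_le_mul_right h6 hlog
    have h9 : a + b + 3 * δ / 8 ≤ (a + b + δ) * ((1 - δ / 8) * (1 - δ / 8)) := by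
      nlinarith [mul_nonneg hδ.le hδ.le]
    have h10 : 0 < (1 - δ / 8) * (1 - δ / 8) := by
      have : 0 < 1 - δ / 8 := by linarith
      positivity
    have h11 : x * ((1 - δ / 8) * (1 - δ / 8)) ≤ ((a + b + δ) * y) * ((1 - δ / 8) * (1 - δ / 8)) := by
      calc x * ((1 - δ / 8) * (1 - δ / 8)) = x * (1 - δ / 8) * (1 - δ / 8) := by ring
        _ ≤ (a + b + 3 * δ / 8) * y := hX2
        _ ≤ ((a + b + δ) * ((1 - δ / 8) * (1 - δ / 8))) * y := mul_le_mul_of_nonneg_right h9 hy0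
        _ = _ := by ring
    exact le_of_mul_le_mul_right h11 h10

/-- square roots are badly approximable -/
theorem badly_sqrt {r : ℕ} (hr : ¬ IsSquare r) : BadlyApprox (Real.sqrt r) := by
  have hs0 : 0 ≤ Real.sqrt r := Real.sqrt_nonneg _
  refine ⟨1 / (2 * Real.sqrt r + 1), by positivity, fun q c hq => ?_⟩
  have hq0 : (0 : ℝ) < q := by exact_mod_cast hq
  have hq1 : (1 : ℝ) ≤ q := by exact_mod_cast hq
  obtain ⟨z, hz⟩ : ∃ z : ℝ, z = Real.sqrt r - c / q := ⟨_, rfl⟩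
  rw [← hz]
  rcases le_or_gt 1 |z| with h | h
  · refine le_trans ?_ h
    rw [div_div, div_le_one (by positivity)]
    have h1 : (1 : ℝ) ≤ (q : ℝ) ^ 2 := one_le_pow₀ hq1
    nlinarith
  · have hne : (r : ℤ) * (q : ℤ) ^ 2 - c ^ 2 ≠ 0 := by
      intro h0
      apply hr
      have h1 : ((c : ℚ) / q) * ((c : ℚ) / q) = r := by
        have hq' : (q : ℚ) ≠ 0 := by exact_mod_cast hq.ne'
        have h2 : (r : ℚ) * (q : ℚ) ^ 2 - (c : ℚ) ^ 2 = 0 := by exact_mod_cast h0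
        field_simp
        linarith
      have h2 : IsSquare ((r : ℕ) : ℚ) := ⟨_, h1.symm⟩
      exact Rat.isSquare_natCast_iff.1 h2
    have h1 : (1 : ℝ) ≤ |(r : ℝ) * (q : ℝ) ^ 2 - (c : ℝ) ^ 2| := by
      have h2 : (1 : ℤ) ≤ |(r : ℤ) * (q : ℤ) ^ 2 - c ^ 2| := Int.one_le_abs hne
      exact_mod_cast h2
    have hsq : Real.sqrt r ^ 2 = r := Real.sq_sqrt (Nat.cast_nonneg r)
    have e1 : (r : ℝ) * (q : ℝ) ^ 2 - (c : ℝ) ^ 2 = (q : ℝ) ^ 2 * (z * (2 * Real.sqrt r - z)) := by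
      have e0 : z * (2 * Real.sqrt r - z) = Real.sqrt r ^ 2 - (c / q) ^ 2 := by
        rw [hz]
        ring
      rw [e0, hsq]
      field_simp
    rw [e1, abs_mul, abs_mul, abs_of_nonneg (by positivity : (0 : ℝ) ≤ (q : ℝ) ^ 2)] at h1
    have h2 : |2 * Real.sqrt r - z| ≤ 2 * Real.sqrt r + 1 := by
      refine (abs_sub _ _).trans ?_
      rw [abs_of_nonneg (by positivity : (0 : ℝ) ≤ 2 * Real.sqrt r)]
      linarith
    have h3 : 1 ≤ (q : ℝ) ^ 2 * (|z| * (2 * Real.sqrt r + 1)) :=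
      h1.trans (mul_le_mul_of_nonneg_left (mul_le_mul_of_nonneg_left h2 (abs_nonneg _)) (by positivity))
    rw [div_div, div_le_iff₀ (by positivity)]
    calc (1 : ℝ) ≤ (q : ℝ) ^ 2 * (|z| * (2 * Real.sqrt r + 1)) := h3
      _ = |z| * ((2 * Real.sqrt r + 1) * (q : ℝ) ^ 2) := by ring

/-- the inverses of square roots are badly approximable -/
theorem badly_sqrt_inv {r : ℕ} (hr0 : 0 < r) (hr : ¬ IsSquare r) : BadlyApprox (Real.sqrt r)⁻¹ := by
  obtain ⟨C, hC, H⟩ := badly_sqrt hr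
  have hr1 : (0 : ℝ) < r := by exact_mod_cast hr0
  have hs0 : 0 < Real.sqrt r := Real.sqrt_pos.2 hr1
  refine ⟨C / r, by positivity, fun q c hq => ?_⟩
  have hq0 : (0 : ℝ) < q := by exact_mod_cast hq
  have h1 := H q (r * c) hq
  have hsq : Real.sqrt r * Real.sqrt r = r := Real.mul_self_sqrt hr1.le
  have e1 : (Real.sqrt r)⁻¹ = Real.sqrt r / r := by
    rw [eq_div_iff hr1.ne', inv_mul_eq_iff_eq_mul₀ hs0.ne', hsq]
  have e2 : |(Real.sqrt r)⁻¹ - c / q| = |Real.sqrt r - ((r * c : ℤ) : ℝ) / q| / r := by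
    rw [e1, ← abs_of_pos hr1, ← abs_div, abs_of_pos hr1]
    congr 1
    push_cast
    field_simp
  rw [e2, div_div, mul_comm (r : ℝ) _, ← div_div]
  exact div_le_div_of_nonneg_right h1 hr1.le

end Pool.Agent.X134.UD
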