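import Mathlib
import Pool.Agent.X134.UD.Seq
import Pool.Agent.X20.Tr.Dyad

/-!
# Upper densities along `⌊α n ^ c⌋`
-/

set_option autoImplicit false

namespace Pool.Agent.X134.UD

open Filter Topology Finset MeasureTheory

theorem sparse (c : ℝ) (hc : 1 < c) : ∃ κ : ℝ, 0 < κ ∧ κ < 1 ∧ ∀ (ι : Type) [Countable ι]
    (Bad : ι → ℕ → Prop), ∃ E : Set ℝ, dimH E ≤ ENNReal.ofReal (1 - κ) ∧ ∀ α : ℝ, 0 < α → α ∉ E →
      ∀ (i : ι) (β : ℝ), 0 ≤ β → UpperLE (Bad i) β →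
        UpperLE (fun n => Bad i ⌊α * (n : ℝ) ^ c⌋₊) β := by
  classical
  obtain ⟨κ, hκ0, hκ1, H⟩ := Pool.Agent.X20.Tr.sparse_up c hc
  refine ⟨κ, hκ0, hκ1, fun ι _ Bad => ?_⟩
  obtain ⟨E, hE, hh⟩ := H ι Bad
  refine ⟨E, hE, fun α hα hαE i β hβ hB δ hδ => ?_⟩
  obtain ⟨N₀, hN₀⟩ := hh α hα hαE i β hβ (fun ε hε => by
    obtain ⟨X₀, hX₀⟩ := hB (ε / 2) (by positivity)
    obtain ⟨X₁, hX₁⟩ := exists_nat_ge ((β + ε / 2) / (ε / 2))
    refine ⟨max X₀ X₁, fun X hX => ?_⟩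
    have h1 := hX₀ (X + 1) (by have := le_trans (le_max_left _ _) hX; omega)
    have h2 : (X₁ : ℝ) ≤ X := by exact_mod_cast le_trans (le_max_right _ _) hX
    rw [ncard_eq] at h1
    have h3 : (((Icc 1 X).filter (Bad i)).card : ℝ) ≤ (((range (X + 1)).filter (Bad i)).card : ℝ) := by
      refine Nat.cast_le.2 (card_le_card fun m hm => ?_)
      rw [mem_filter, mem_Icc] at hm
      rw [mem_filter, mem_range]
      exact ⟨by omega, hm.2⟩
    have h4 : β + ε / 2 ≤ ε / 2 * X := by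
      have h5 := hX₁.trans h2
      rw [div_le_iff₀ (by positivity)] at h5
      linarith
    have h6 : (((X + 1 : ℕ) : ℝ)) = X + 1 := by push_cast; ring
    rw [h6] at h1
    have h7 : (((Icc 1 X).filter (Bad i)).card : ℝ) ≤ (β + ε) * X := by nlinarith
    convert h7) (δ / 2) (by positivity)
  obtain ⟨N₁, hN₁⟩ := exists_nat_ge (1 / (δ / 2))
  refine ⟨max N₀ N₁, fun N hN => ?_⟩
  have h1 := hN₀ N (le_trans (le_max_left _ _) hN)
  have h2 : (N₁ : ℝ) ≤ N := by exact_mod_cast le_trans (le_max_right _ _) hN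
  have h3 : 1 ≤ δ / 2 * N := by
    have h5 := hN₁.trans h2
    rw [div_le_iff₀ (by positivity)] at h5
    linarith
  rw [ncard_eq]
  have h4 : (((range N).filter (fun n : ℕ => Bad i ⌊α * (n : ℝ) ^ c⌋₊)).card : ℝ) ≤
      (((Icc 1 N).filter (fun n : ℕ => Bad i ⌊α * (n : ℝ) ^ c⌋₊)).card : ℝ) + 1 := by
    have h5 : (range N).filter (fun n : ℕ => Bad i ⌊α * (n : ℝ) ^ c⌋₊) ⊆
        insert 0 ((Icc 1 N).filter (fun n : ℕ => Bad i ⌊α * (n : ℝ) ^ c⌋₊)) := by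
      intro n hn
      rw [mem_filter, mem_range] at hn
      rw [mem_insert, mem_filter, mem_Icc]
      rcases Nat.eq_zero_or_pos n with h | h
      · exact Or.inl h
      · exact Or.inr ⟨⟨h, by omega⟩, hn.2⟩
    have h6 := (card_le_card h5).trans (card_insert_le _ _)
    exact_mod_cast h6
  have h1' : (((Icc 1 N).filter (fun n : ℕ => Bad i ⌊α * (n : ℝ) ^ c⌋₊)).card : ℝ) ≤ (β + δ / 2) * N := by
    convert h1
  linarith

end Pool.Agent.X134.UD
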